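import Pool.Agent.Q33.BSR.Gpq

/-!
# The retreat depth of the groups `G_{1,q}` and `G_{p,1}` is unbounded

`GG p q` is the group `G_{p,q} = ℤ[p/q, q/p] ⋊ ℤ` of the pairs `(x, k)` with the product
`(x, k) (y, l) = (x + (p/q) ^ k y, k + l)` (see `Pool.Agent.Q33.BSR.Gpq`), `a = (1, 0)`, `t = (0, 1)`,
`gens a t = {a, a⁻¹, t, t⁻¹}`, `len` the word length, `comp S g d` the set of the elements that are
joined to `g` by a path of the Cayley graph outside the ball of radius `|g| - d - 1`, and
`retreatDepth S g` the least `d` for which this set is infinite (see `Pool.Agent.Q33.BSR.Words`).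
-/

set_option autoImplicit false

namespace Pool.Agent.Results.MP_6c6968_al.UnboundedRetreatDepth

open Pool.Agent.Q33.BSR

/-- For all `q ≥ 2` the group `G_{1,q}`, and for all `p ≥ 2` the group `G_{p,1}`, has unbounded retreat
depth with respect to the walk or switch generators `a^±1`, `t^±1`. -/
theorem result :
    (∀ (q : ℕ) [NeZero q], 2 ≤ q → ∀ D : ℕ, ∃ g : GG 1 q,
      D < retreatDepth (gens (GG.a 1 q) (GG.t 1 q)) g) ∧
    (∀ (p : ℕ) [NeZero p], 2 ≤ p → ∀ D : ℕ, ∃ g : GG p 1,
      D < retreatDepth (gens (GG.a p 1) (GG.t p 1)) g) :=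
  ⟨fun q _ hq D => unbounded_one q hq D, fun p _ hp D => unbounded_one' p hp D⟩

end Pool.Agent.Results.MP_6c6968_al.UnboundedRetreatDepth
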